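import Pool.Agent.Helper72.WF.Low

/-!
# Project WF, module Bound: no large deficit

PROOF.  `μ = 1 - e^(-lam)`, `m = lam - rh lam b = μ - lam²/b ∈ [μ - ε, μ]`, `rh / b ≤ ε` (`rh ≤ lam - μ + ε ≤ 1 + ...`: use
`rh = lam - m ≤ lam ≤ 1` as `m > 0`), `e^(m/b) - 1 ≤ (m/b) (1 + m/b) ≤ (μ/b) (1 + ε)`.  So `gH_lower` gives
`e^(lam (s-i)/b) (e^(m i/b) - 1) ≤ (1+ε)² (μ/b) gH`.  With `X = s/b ≥ x0`, `Y = i/b`, `X ≤ Y ≤ n/b ≤ c`:
`e^(lam (X - Y)) (e^(m Y) - 1) = e^(lam X - (lam - m) Y) (1 - e^(-m Y)) ≥ e^(lam x0 - (lam - μ + ε) c) (1 - e^(-(μ - ε) x0))`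
(`0 ≤ lam - m ≤ lam - μ + ε`).  Multiply by `κ ≥ 1 - 2 lam - ε > 0` (positive because of `hF`) and use `hF`:
`(1+ε)² μ c < (1+ε)² (μ/b) κ gH`, so `n ≤ c b < κ gH`.
-/

set_option autoImplicit false

namespace Pool.Agent.Helper72.WF

open Finset

theorem wf_Bound_gH_nonneg {lam q : ℝ} (hq : 0 < q) (b i : ℕ) (s : ℤ) :
    0 ≤ gH lam q b i s := by
  unfold gH
  refine Finset.sum_nonneg fun j _ => ?_
  exact mul_nonneg (by positivity) (ef_pos lam b _).le

theorem bound3 {lam x0 c ε κ : ℝ} {b i n : ℕ} {s : ℤ} (hl : 0 < lam) (hl1 : lam ≤ 1)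
    (hε : 0 < ε) (hεμ : ε < 1 - Real.exp (-lam)) (hx0 : 0 < x0) (hb : 0 < b)
    (hb1 : lam ^ 2 ≤ ε * b) (hb2 : 1 ≤ ε * b) (hn : (n : ℝ) ≤ c * b) (hi : i ≤ n)
    (hsi : s ≤ i) (hs : x0 * b ≤ s) (hκ : 1 - 2 * lam - ε ≤ κ) (hκ1 : κ ≤ 1)
    (hF : (1 + ε) ^ 2 * (1 - Real.exp (-lam)) * c <
      (1 - 2 * lam - ε) * Real.exp (lam * x0 - (lam - (1 - Real.exp (-lam)) + ε) * c) *
        (1 - Real.exp (-((1 - Real.exp (-lam)) - ε) * x0))) :
    (n : ℝ) < κ * gH lam (1 + rh lam b / b) b i s := by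
  have hbR : (0 : ℝ) < b := by exact_mod_cast hb
  have hb1' : (1 : ℝ) ≤ b := by exact_mod_cast hb
  set μ : ℝ := 1 - Real.exp (-lam) with hμ
  have hμ0 : 0 < μ := by linarith
  have hμ1 : μ ≤ lam := by
    have h1 := Real.add_one_le_exp (-lam)
    linarith
  have hμ2 : μ < 1 := by
    have h1 := Real.exp_pos (-lam)
    linarith
  have hq2 : lam ^ 2 / b ≤ ε := by
    rw [div_le_iff₀ hbR]
    exact hb1
  have hq3 : 0 < lam ^ 2 / (b : ℝ) := by positivity
  have hrh : rh lam b = lam - μ + lam ^ 2 / b := rfl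
  set m : ℝ := lam - rh lam b with hm
  have hm1 : m = μ - lam ^ 2 / b := by rw [hm, hrh]; ring
  have hm2 : μ - ε ≤ m := by linarith
  have hm3 : m ≤ μ := by linarith
  have hm0 : 0 < m := by linarith
  have hrh0 : 0 < rh lam b := by rw [hrh]; linarith
  have hrh1 : rh lam b ≤ 1 := by linarith
  have hib : 1 / (b : ℝ) ≤ ε := by
    rw [div_le_iff₀ hbR]
    exact hb2
  have hrb : rh lam b / b ≤ ε := by
    refine le_trans ?_ hib
    exact div_le_div_of_nonneg_right hrh1 hbR.le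
  have hq0 : 0 < 1 + rh lam b / b := by positivity
  have hg0 := wf_Bound_gH_nonneg (lam := lam) hq0 b i s
  have hmb : m / b ≤ ε := by
    refine le_trans ?_ hib
    exact div_le_div_of_nonneg_right (by linarith) hbR.le
  have hmb0 : 0 < m / b := by positivity
  have hmb1 : m / b ≤ 1 := by
    rw [div_le_one hbR]
    linarith
  have hex : Real.exp (m / b) - 1 ≤ μ / b * (1 + ε) := by
    have h1 := Real.abs_exp_sub_one_sub_id_le (x := m / b) (by rw [abs_of_pos hmb0]; exact hmb1)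
    have h2 := (abs_le.1 h1).2
    have h3 : m / b ≤ μ / b := div_le_div_of_nonneg_right hm3 hbR.le
    have h4 : m / b * (1 + m / b) ≤ μ / b * (1 + ε) :=
      mul_le_mul h3 (by linarith) (by linarith) (by positivity)
    nlinarith
  have hex0 : 0 ≤ Real.exp (m / b) - 1 := by
    have h1 := Real.add_one_le_exp (m / b)
    linarith
  have hlow := gH_lower hl hb (s := s) (by rw [← hm]; exact hm0) i
  rw [← hm] at hlow
  have hup : (1 + rh lam b / b) * (Real.exp (m / b) - 1) * gH lam (1 + rh lam b / b) b i s ≤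
      (1 + ε) ^ 2 * (μ / b) * gH lam (1 + rh lam b / b) b i s := by
    refine mul_le_mul_of_nonneg_right ?_ hg0
    calc (1 + rh lam b / b) * (Real.exp (m / b) - 1)
        ≤ (1 + ε) * (μ / b * (1 + ε)) :=
          mul_le_mul (by linarith) hex hex0 (by linarith)
      _ = (1 + ε) ^ 2 * (μ / b) := by ring
  have hsi' : (s : ℝ) ≤ i := by exact_mod_cast hsi
  have hin : (i : ℝ) ≤ n := by exact_mod_cast hi
  have hX : x0 ≤ (s : ℝ) / b := by
    rw [le_div_iff₀ hbR]
    exact hs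
  have hXY : (s : ℝ) / b ≤ (i : ℝ) / b := div_le_div_of_nonneg_right hsi' hbR.le
  have hYc : (i : ℝ) / b ≤ c := by
    rw [div_le_iff₀ hbR]
    linarith
  have hc0 : 0 < c := by linarith
  have hLHS : Real.exp (lam * x0 - (lam - μ + ε) * c) * (1 - Real.exp (-(μ - ε) * x0)) ≤
      Real.exp (lam * ((s : ℝ) - i) / b) * (Real.exp (m * i / b) - 1) := by
    have e1 : Real.exp (lam * ((s : ℝ) - i) / b) * (Real.exp (m * i / b) - 1) =
        Real.exp (lam * (s / b) - (lam - m) * (i / b)) * (1 - Real.exp (-(m * (i / b)))) := by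
      have e2 : lam * ((s : ℝ) / b) - (lam - m) * ((i : ℝ) / b) =
          lam * ((s : ℝ) - i) / b + m * i / b := by
        field_simp
        ring
      have e3 : m * ((i : ℝ) / b) = m * i / b := by ring
      rw [e2, e3, Real.exp_add, Real.exp_neg]
      have e4 := (Real.exp_pos (m * i / b)).ne'
      field_simp
    rw [e1]
    refine mul_le_mul ?_ ?_ ?_ (Real.exp_pos _).le
    · apply Real.exp_le_exp.2
      have h1 : lam * x0 ≤ lam * (s / b) := mul_le_mul_of_nonneg_left hX hl.le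
      have h2 : (lam - m) * (i / b) ≤ (lam - μ + ε) * c :=
        mul_le_mul (by linarith) hYc (by linarith) (by linarith)
      linarith
    · have h1 : (μ - ε) * x0 ≤ m * (i / b) :=
        mul_le_mul hm2 (by linarith) hx0.le hm0.le
      have h2 : Real.exp (-(m * (i / b))) ≤ Real.exp (-(μ - ε) * x0) := by
        apply Real.exp_le_exp.2
        linarith
      linarith
    · have h1 : Real.exp (-(μ - ε) * x0) ≤ 1 := by
        rw [Real.exp_le_one_iff]
        have h2 : 0 < (μ - ε) * x0 := mul_pos (by linarith) hx0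
        linarith
      linarith
  set F : ℝ := Real.exp (lam * x0 - (lam - μ + ε) * c) * (1 - Real.exp (-(μ - ε) * x0)) with hFd
  have hF' : (1 + ε) ^ 2 * μ * c < (1 - 2 * lam - ε) * F := by
    rw [hFd, ← mul_assoc]
    exact hF
  have hF0 : 0 ≤ F := by
    rw [hFd]
    refine mul_nonneg (Real.exp_pos _).le ?_
    have h1 : Real.exp (-(μ - ε) * x0) ≤ 1 := by
      rw [Real.exp_le_one_iff]
      have h2 : 0 < (μ - ε) * x0 := mul_pos (by linarith) hx0
      linarith
    linarith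
  have hpos : 0 < (1 + ε) ^ 2 * μ * c := by positivity
  have hk0 : 0 < 1 - 2 * lam - ε := by
    by_contra hcon
    push Not at hcon
    have h1 : (1 - 2 * lam - ε) * F ≤ 0 := mul_nonpos_of_nonpos_of_nonneg hcon hF0
    linarith
  have hκ0 : 0 < κ := by linarith
  have hfin : (1 + ε) ^ 2 * μ * c < (1 + ε) ^ 2 * μ / b * (κ * gH lam (1 + rh lam b / b) b i s) := by
    calc (1 + ε) ^ 2 * μ * c < (1 - 2 * lam - ε) * F := hF'
      _ ≤ κ * F := mul_le_mul_of_nonneg_right hκ hF0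
      _ ≤ κ * ((1 + ε) ^ 2 * (μ / b) * gH lam (1 + rh lam b / b) b i s) :=
          mul_le_mul_of_nonneg_left (hLHS.trans (hlow.trans hup)) hκ0.le
      _ = (1 + ε) ^ 2 * μ / b * (κ * gH lam (1 + rh lam b / b) b i s) := by ring
  have hM : 0 < (1 + ε) ^ 2 * μ / b := by positivity
  have h9 : (1 + ε) ^ 2 * μ / b * (c * b) < (1 + ε) ^ 2 * μ / b *
      (κ * gH lam (1 + rh lam b / b) b i s) := by
    have h10 : (1 + ε) ^ 2 * μ / b * (c * b) = (1 + ε) ^ 2 * μ * c := by
      field_simp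
    rw [h10]
    exact hfin
  have h11 := lt_of_mul_lt_mul_left h9 hM.le
  linarith

end Pool.Agent.Helper72.WF
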