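import Mathlib

/-!
# Project WF, module Eps

PROOF.  Both sides are continuous in `ε` (`fun_prop`), at `ε = 0` it is the hypothesis, so it holds for all small `ε`.
-/

set_option autoImplicit false

namespace Pool.Agent.Helper72.WF

theorem exists_eps {lam x0 c : ℝ} (hl : 0 < lam)
    (h : (1 - Real.exp (-lam)) * c <
      (1 - 2 * lam) * Real.exp (lam * x0 - (lam - (1 - Real.exp (-lam))) * c) *
        (1 - Real.exp (-(1 - Real.exp (-lam)) * x0))) :
    ∃ ε : ℝ, 0 < ε ∧ ε < 1 - Real.exp (-lam) ∧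
      (1 + ε) ^ 2 * (1 - Real.exp (-lam)) * c <
      (1 - 2 * lam - ε) * Real.exp (lam * x0 - (lam - (1 - Real.exp (-lam)) + ε) * c) *
        (1 - Real.exp (-((1 - Real.exp (-lam)) - ε) * x0)) := by
  have hμ : 0 < 1 - Real.exp (-lam) := by
    have : Real.exp (-lam) < 1 := by
      rw [Real.exp_lt_one_iff]
      linarith
    linarith
  have hc1 : Continuous fun ε : ℝ => (1 + ε) ^ 2 * (1 - Real.exp (-lam)) * c := by fun_prop
  have hc2 : Continuous fun ε : ℝ => (1 - 2 * lam - ε) *
      Real.exp (lam * x0 - (lam - (1 - Real.exp (-lam)) + ε) * c) *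
        (1 - Real.exp (-((1 - Real.exp (-lam)) - ε) * x0)) := by fun_prop
  have h0 : (1 + (0 : ℝ)) ^ 2 * (1 - Real.exp (-lam)) * c < (1 - 2 * lam - 0) *
      Real.exp (lam * x0 - (lam - (1 - Real.exp (-lam)) + 0) * c) *
        (1 - Real.exp (-((1 - Real.exp (-lam)) - 0) * x0)) := by
    simpa using h
  have h1 := (hc1.tendsto 0).eventually_lt (hc2.tendsto 0) h0
  have h2 := Metric.eventually_nhds_iff.1 h1
  obtain ⟨r, hr, hr2⟩ := h2
  refine ⟨min (r / 2) ((1 - Real.exp (-lam)) / 2), by positivity, ?_, hr2 ?_⟩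
  · exact (min_le_right _ _).trans_lt (by linarith)
  · rw [Real.dist_eq, sub_zero, abs_of_pos (by positivity)]
    exact (min_le_left _ _).trans_lt (by linarith)

end Pool.Agent.Helper72.WF
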