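import Pool.Agent.Helper72.WF.Num

/-! # Project WF, module NumA: see the header of `Num.lean` -/

set_option autoImplicit false

namespace Pool.Agent.Helper72.WF

private theorem wf_numA_exp_neg {x : ℝ} (hx : 0 ≤ x) : Real.exp (-x) ≤ 1 - x + x ^ 2 / 2 := by
  have h1 := Real.quadratic_le_exp_of_nonneg hx
  have h2 : 0 < 1 + x + x ^ 2 / 2 := by positivity
  rw [Real.exp_neg]
  refine (inv_anti₀ h2 h1).trans ?_
  rw [inv_eq_one_div, div_le_iff₀ h2]
  nlinarith [sq_nonneg (x ^ 2)]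

private theorem wf_numA_exp4 : (54.5 : ℝ) ≤ Real.exp 4 := by
  have h1 := Real.exp_one_gt_d9
  have h2 : Real.exp 4 = Real.exp 1 ^ 4 := by
    rw [← Real.exp_nat_mul]
    norm_num
  rw [h2]
  have h3 : (2.718 : ℝ) ^ 4 ≤ Real.exp 1 ^ 4 :=
    pow_le_pow_left₀ (by norm_num) (by linarith) 4
  refine le_trans (by norm_num) h3

private theorem wf_numA_exp5 : Real.exp (-5) ≤ 1 / 100 := by
  have h1 := Real.exp_one_gt_d9
  have h2 : Real.exp 5 = Real.exp 1 ^ 5 := by
    rw [← Real.exp_nat_mul]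
    norm_num
  have h3 : (2.7 : ℝ) ^ 5 ≤ Real.exp 1 ^ 5 :=
    pow_le_pow_left₀ (by norm_num) (by linarith) 5
  have h4 : (100 : ℝ) ≤ Real.exp 5 := by
    rw [h2]
    exact le_trans (by norm_num) h3
  rw [Real.exp_neg, ← one_div]
  exact one_div_le_one_div_of_le (by norm_num) h4

/-- the common part of the two cases -/
private theorem wf_numA_core {s L A B : ℝ} (hs : 5.385 ≤ s) (hL : L * s = 3 / 2) (hA0 : 0 ≤ A)
    (hA : A ≤ 1 - 2 * L) (hB0 : 0 ≤ B) (hB : B ≤ Real.exp (39 / 8 - 31 / 10 * L))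
    (hfin : 3 / 2 * (s + 4) < A * B * (99 / 100)) :
    (1 - Real.exp (-L)) * (s ^ 2 + 4 * s) <
      (1 - 2 * L) * Real.exp (L * (4 * s - 1 / 10) -
        (L - (1 - Real.exp (-L))) * (s ^ 2 + 4 * s)) *
        (1 - Real.exp (-(1 - Real.exp (-L)) * (4 * s - 1 / 10))) := by
  have hs0 : 0 < s := by linarith
  have hL0 : 0 < L := by
    by_contra hcon
    rw [not_lt] at hcon
    nlinarith
  have hL1 : L ≤ 0.2786 := by
    by_contra hcon
    rw [not_le] at hcon
    nlinarith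
  have t1 : 1 - L ≤ Real.exp (-L) := by
    have := Real.add_one_le_exp (-L)
    linarith
  have t2 := wf_numA_exp_neg hL0.le
  obtain ⟨t, ht⟩ : ∃ t, t = Real.exp (-L) := ⟨_, rfl⟩
  rw [← ht] at t1 t2 ⊢
  have hc0 : 0 < s ^ 2 + 4 * s := by positivity
  -- left side
  have e1 : (1 - t) * (s ^ 2 + 4 * s) ≤ 3 / 2 * (s + 4) := by
    have h1 : (1 - t) * (s ^ 2 + 4 * s) ≤ L * (s ^ 2 + 4 * s) :=
      mul_le_mul_of_nonneg_right (by linarith) hc0.le
    have h2 : L * (s ^ 2 + 4 * s) = L * s * (s + 4) := by ring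
    rw [h2, hL] at h1
    exact h1
  -- exponent
  have e2 : 39 / 8 - 31 / 10 * L ≤
      L * (4 * s - 1 / 10) - (L - (1 - t)) * (s ^ 2 + 4 * s) := by
    have h1 : (L - (1 - t)) * (s ^ 2 + 4 * s) ≤ L ^ 2 / 2 * (s ^ 2 + 4 * s) :=
      mul_le_mul_of_nonneg_right (by linarith) hc0.le
    have h2 : L ^ 2 / 2 * (s ^ 2 + 4 * s) = (L * s) ^ 2 / 2 + 2 * L * (L * s) := by ring
    have h3 : L * (4 * s - 1 / 10) = 4 * (L * s) - L / 10 := by ring
    rw [h2, hL] at h1
    rw [h3, hL]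
    linarith
  -- the last factor
  have e3 : 99 / 100 ≤ 1 - Real.exp (-(1 - t) * (4 * s - 1 / 10)) := by
    have h1 : 5 ≤ (1 - t) * (4 * s - 1 / 10) := by
      have h2 : (L - L ^ 2 / 2) * (4 * s - 1 / 10) ≤ (1 - t) * (4 * s - 1 / 10) :=
        mul_le_mul_of_nonneg_right (by linarith) (by linarith)
      have h3 : (L - L ^ 2 / 2) * (4 * s - 1 / 10) =
          4 * (L * s) - L / 10 - 2 * L * (L * s) + L ^ 2 / 20 := by ring
      rw [h3, hL] at h2
      have h4 : 0 ≤ L ^ 2 := sq_nonneg L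
      linarith
    have h2 : Real.exp (-(1 - t) * (4 * s - 1 / 10)) ≤ Real.exp (-5) :=
      Real.exp_le_exp.2 (by linarith)
    have h3 := wf_numA_exp5
    linarith
  have e4 : B ≤ Real.exp (L * (4 * s - 1 / 10) - (L - (1 - t)) * (s ^ 2 + 4 * s)) :=
    hB.trans (Real.exp_le_exp.2 e2)
  refine lt_of_le_of_lt e1 (lt_of_lt_of_le hfin ?_)
  have h5 : A * B ≤ (1 - 2 * L) *
      Real.exp (L * (4 * s - 1 / 10) - (L - (1 - t)) * (s ^ 2 + 4 * s)) :=
    mul_le_mul hA e4 hB0 (hA0.trans hA)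
  exact mul_le_mul h5 e3 (by norm_num) ((mul_nonneg hA0 hB0).trans h5)

theorem num_a {k : ℕ} (h1 : 29 ≤ k) (h2 : k ≤ 900) : NumF k (k + 4 * √(k : ℝ)) := by
  have hk0 : (0 : ℝ) ≤ k := Nat.cast_nonneg k
  have h1' : (29 : ℝ) ≤ k := by exact_mod_cast h1
  have h2' : (k : ℝ) ≤ 900 := by exact_mod_cast h2
  obtain ⟨s, hs⟩ : ∃ s, s = √(k : ℝ) := ⟨_, rfl⟩
  have hs2 : (k : ℝ) = s ^ 2 := by rw [hs, Real.sq_sqrt hk0]
  have hlo : 5.385 ≤ s := by
    rw [hs]
    apply Real.le_sqrt_of_sq_le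
    norm_num
    linarith
  have hhi : s ≤ 30 := by
    rw [hs]
    apply Real.sqrt_le_iff.2
    constructor
    · norm_num
    · exact h2'.trans (by norm_num)
  have hs0 : 0 < s := by linarith
  have hL : 3 / (2 * s) * s = 3 / 2 := by
    field_simp
  obtain ⟨L, hLd⟩ : ∃ L, L = 3 / (2 * s) := ⟨_, rfl⟩
  rw [← hLd] at hL
  have hL0 : 0 < L := by rw [hLd]; positivity
  have hL1 : L ≤ 0.2786 := by
    by_contra hcon
    rw [not_le] at hcon
    nlinarith
  rw [← hs]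
  refine ⟨L, 4 * s - 1 / 10, hL0, by linarith, by linarith, by linarith, ?_⟩
  rw [hs2]
  have h54 := wf_numA_exp4
  rcases le_total s 10 with h10 | h10
  · refine wf_numA_core (A := 0.4428) (B := 54.5) hlo hL (by norm_num) (by linarith)
      (by norm_num) ?_ ?_
    · exact h54.trans (Real.exp_le_exp.2 (by linarith))
    · norm_num
      linarith
  · have hL2 : L ≤ 0.15 := by
      by_contra hcon
      rw [not_le] at hcon
      nlinarith
    refine wf_numA_core (A := 0.7) (B := 54.5 * 1.49) hlo hL (by norm_num) (by linarith)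
      (by norm_num) ?_ ?_
    · have h3 : (1.49 : ℝ) ≤ Real.exp 0.41 := by
        have := Real.quadratic_le_exp_of_nonneg (x := (0.41 : ℝ)) (by norm_num)
        refine le_trans (by norm_num) this
      have h4 : (54.5 : ℝ) * 1.49 ≤ Real.exp 4 * Real.exp 0.41 :=
        mul_le_mul h54 h3 (by norm_num) (Real.exp_pos _).le
      rw [← Real.exp_add] at h4
      exact h4.trans (Real.exp_le_exp.2 (by norm_num; linarith))
    · norm_num
      linarith

end Pool.Agent.Helper72.WF
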