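import Pool.Agent.Helper72.WF.Num

/-! # Project WF, module NumB: see the header of `Num.lean` -/

set_option autoImplicit false

namespace Pool.Agent.Helper72.WF

private theorem wf_NumB_exp {x : ℝ} (hx : 0 ≤ x) : Real.exp (-x) ≤ 1 - x + x ^ 2 / 2 := by
  have h1 := Real.quadratic_le_exp_of_nonneg hx
  have h2 : 0 < 1 + x + x ^ 2 / 2 := by positivity
  rw [Real.exp_neg]
  have h3 : (Real.exp x)⁻¹ ≤ (1 + x + x ^ 2 / 2)⁻¹ := inv_anti₀ h2 h1
  refine h3.trans ?_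
  rw [inv_le_iff_one_le_mul₀ h2]
  have h4 : (1 - x + x ^ 2 / 2) * (1 + x + x ^ 2 / 2) = 1 + x ^ 4 / 4 := by ring
  rw [h4]
  have h5 : 0 ≤ x ^ 4 := by positivity
  linarith

private theorem wf_NumB_six : 403 ≤ Real.exp 6 := by
  have h1 : Real.exp 6 = Real.exp 1 ^ 6 := by
    rw [← Real.exp_nat_mul]
    norm_num
  rw [h1]
  have h2 := Real.exp_one_gt_d9
  have h3 : (2.718 : ℝ) ^ 6 ≤ Real.exp 1 ^ 6 :=
    pow_le_pow_left₀ (by norm_num) (by linarith) 6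
  refine le_trans ?_ h3
  norm_num

private theorem wf_NumB_big : 780 ≤ Real.exp 6.89 := by
  have h1 : Real.exp 6.89 = Real.exp 6 * Real.exp 0.89 := by
    rw [← Real.exp_add]
    norm_num
  rw [h1]
  have h2 := wf_NumB_six
  have h3 := Real.quadratic_le_exp_of_nonneg (show (0 : ℝ) ≤ 0.89 by norm_num)
  have h4 : (2 : ℝ) ≤ Real.exp 0.89 := le_trans (by norm_num) h3
  calc (780 : ℝ) ≤ 403 * 2 := by norm_num
    _ ≤ Real.exp 6 * Real.exp 0.89 := mul_le_mul h2 h4 (by norm_num) (Real.exp_pos _).le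

private theorem wf_NumB_main {s : ℝ} (h1 : 30 ≤ s) (h2 : s ≤ 200) :
    (1 - Real.exp (-(3 / s))) * (s ^ 2 + 4 * s) <
      (1 - 2 * (3 / s)) * Real.exp (3 / s * (4 * s - 1 / 10) -
        (3 / s - (1 - Real.exp (-(3 / s)))) * (s ^ 2 + 4 * s)) *
        (1 - Real.exp (-(1 - Real.exp (-(3 / s))) * (4 * s - 1 / 10))) := by
  have hs : 0 < s := by linarith
  obtain ⟨l, hl⟩ : ∃ l : ℝ, l = 3 / s := ⟨_, rfl⟩
  rw [← hl]
  have hls : l * s = 3 := by rw [hl]; field_simp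
  have hlpos : 0 < l := by rw [hl]; positivity
  have hl1 : l ≤ 0.1 := by
    rw [hl, div_le_iff₀ hs]
    linarith
  obtain ⟨m, hm⟩ : ∃ m : ℝ, m = 1 - Real.exp (-l) := ⟨_, rfl⟩
  rw [← hm]
  have hm1 : m ≤ l := by
    have := Real.add_one_le_exp (-l)
    rw [hm]
    linarith
  have hm2 : l - l ^ 2 / 2 ≤ m := by
    have := wf_NumB_exp hlpos.le
    rw [hm]
    linarith
  have hc : 0 < s ^ 2 + 4 * s := by positivity
  -- the left side
  have hL : m * (s ^ 2 + 4 * s) ≤ 612 := by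
    have h3 : m * (s ^ 2 + 4 * s) ≤ l * (s ^ 2 + 4 * s) := mul_le_mul_of_nonneg_right hm1 hc.le
    have h4 : l * (s ^ 2 + 4 * s) = (l * s) * (s + 4) := by ring
    rw [h4, hls] at h3
    linarith
  -- the exponent
  have hE : 6.89 ≤ l * (4 * s - 1 / 10) - (l - m) * (s ^ 2 + 4 * s) := by
    have h3 : (l - m) * (s ^ 2 + 4 * s) ≤ l ^ 2 / 2 * (s ^ 2 + 4 * s) :=
      mul_le_mul_of_nonneg_right (by linarith) hc.le
    have h4 : l ^ 2 / 2 * (s ^ 2 + 4 * s) = (l * s) ^ 2 / 2 + 2 * l * (l * s) := by ring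
    have h5 : l * (4 * s - 1 / 10) = 4 * (l * s) - l / 10 := by ring
    rw [h4, hls] at h3
    rw [h5, hls]
    linarith
  have hexp : 780 ≤ Real.exp (l * (4 * s - 1 / 10) - (l - m) * (s ^ 2 + 4 * s)) :=
    wf_NumB_big.trans (Real.exp_le_exp.2 hE)
  -- the last factor
  have hx : 6 ≤ m * (4 * s - 1 / 10) := by
    have h3 : (l - l ^ 2 / 2) * (4 * s - 1 / 10) ≤ m * (4 * s - 1 / 10) :=
      mul_le_mul_of_nonneg_right hm2 (by linarith)
    have h4 : (l - l ^ 2 / 2) * (4 * s - 1 / 10) =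
        4 * (l * s) - l / 10 - 2 * l * (l * s) + l ^ 2 / 20 := by ring
    rw [h4, hls] at h3
    have h5 : 0 ≤ l ^ 2 / 20 := by positivity
    linarith
  have hlast : 0.99 ≤ 1 - Real.exp (-m * (4 * s - 1 / 10)) := by
    have h3 : Real.exp (-m * (4 * s - 1 / 10)) ≤ Real.exp (-6) :=
      Real.exp_le_exp.2 (by linarith)
    have h4 : Real.exp (-6) ≤ 1 / 403 := by
      rw [Real.exp_neg, one_div]
      exact inv_anti₀ (by norm_num) wf_NumB_six
    have h5 : (1 : ℝ) / 403 ≤ 0.01 := by norm_num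
    linarith
  have h08 : 0.8 ≤ 1 - 2 * l := by linarith
  obtain ⟨T, hT⟩ : ∃ T : ℝ, T = Real.exp (l * (4 * s - 1 / 10) - (l - m) * (s ^ 2 + 4 * s)) :=
    ⟨_, rfl⟩
  obtain ⟨V, hV⟩ : ∃ V : ℝ, V = 1 - Real.exp (-m * (4 * s - 1 / 10)) := ⟨_, rfl⟩
  rw [← hT] at hexp ⊢
  rw [← hV] at hlast ⊢
  have h3 : 0.8 * 780 ≤ (1 - 2 * l) * T := mul_le_mul h08 hexp (by norm_num) (by linarith)
  have h4 : 0.8 * 780 * 0.99 ≤ (1 - 2 * l) * T * V :=
    mul_le_mul h3 hlast (by norm_num) (by linarith)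
  refine lt_of_le_of_lt hL (lt_of_lt_of_le ?_ h4)
  norm_num

theorem num_b {k : ℕ} (h1 : 900 ≤ k) (h2 : k ≤ 40000) : NumF k (k + 4 * √(k : ℝ)) := by
  obtain ⟨s, hs⟩ : ∃ s : ℝ, s = √(k : ℝ) := ⟨_, rfl⟩
  have hk : (k : ℝ) = s ^ 2 := by
    rw [hs, Real.sq_sqrt (Nat.cast_nonneg k)]
  have hs1 : 30 ≤ s := by
    rw [hs]
    apply Real.le_sqrt_of_sq_le
    have : (900 : ℝ) ≤ k := by exact_mod_cast h1
    linarith
  have hs2 : s ≤ 200 := by
    rw [hs]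
    refine (Real.sqrt_le_left (by norm_num)).2 ?_
    have : (k : ℝ) ≤ 40000 := by exact_mod_cast h2
    linarith
  have hs0 : 0 < s := by linarith
  rw [← hs]
  refine ⟨3 / s, 4 * s - 1 / 10, by positivity, ?_, by linarith, by linarith, ?_⟩
  · rw [div_le_one hs0]
    linarith
  · rw [hk]
    exact wf_NumB_main hs1 hs2

end Pool.Agent.Helper72.WF
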