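import Pool.Agent.Helper72.WF.Main
import Pool.Agent.Helper72.WF.NumA
import Pool.Agent.Helper72.WF.NumB

/-!
# Project WF: the second order term is at most `4 √k`, for every `k ≥ 2`
-/

set_option autoImplicit false

namespace Pool.Agent.Helper72.WF

open Finset Pool.Agent.Helper72.WC

theorem lower_all4 {k : ℕ} (hk : 2 ≤ k) : ∃ n0 : ℕ, ∀ n ≥ n0,
    (n : ℝ) / (k + 4 * √(k : ℝ)) ≤ qC k n := by
  have hk' : (0 : ℝ) < k := by exact_mod_cast (by omega : 0 < k)
  have hk2 : (2 : ℝ) ≤ k := by exact_mod_cast hk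
  have h1 : √(k : ℝ) * √(k : ℝ) = k := Real.mul_self_sqrt hk'.le
  have h3 : 0 ≤ √(k : ℝ) := Real.sqrt_nonneg _
  rcases le_or_gt k 28 with h | h
  · obtain ⟨n0, hn0⟩ := WE.lower_all hk
    refine ⟨n0, fun n hn => le_trans ?_ (hn0 n hn)⟩
    have h2 : √(k : ℝ) ≤ 16 / 3 := by
      rw [Real.sqrt_le_left (by norm_num)]
      have : (k : ℝ) ≤ 28 := by exact_mod_cast h
      linarith
    have h4 : (0 : ℝ) ≤ n := Nat.cast_nonneg n
    rw [div_le_div_iff₀ (by positivity) (by positivity)]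
    have h5 : (7 : ℝ) * k ≤ 4 * (k + 4 * √(k : ℝ)) := by nlinarith
    calc (n : ℝ) * (7 * k) ≤ n * (4 * (k + 4 * √(k : ℝ))) :=
          mul_le_mul_of_nonneg_left h5 h4
      _ = _ := by ring
  · refine WE.lower_of_main hk (by linarith) ?_
    rcases le_or_gt k 900 with h2 | h2
    · exact mainF (num_a h h2)
    rcases le_or_gt k 40000 with h4 | h4
    · exact mainF (num_b h2.le h4)
    · have h5 : 200 ≤ √(k : ℝ) := by
        rw [Real.le_sqrt' (by norm_num)]
        have : (40000 : ℝ) < k := by exact_mod_cast h4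
        linarith
      refine WE.mainS (by nlinarith) ?_
      have h6 : √(14 * (k + 4 * √(k : ℝ))) < 4 * √(k : ℝ) - 44 := by
        rw [Real.sqrt_lt' (by linarith)]
        nlinarith
      linarith

end Pool.Agent.Helper72.WF
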