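import Mathlib

/-!
# Project WF (MP_c8f8f3_co), module Fun: the exponential potential

PROOFS.  `e^y - 1 ≤ y + y²` for `0 ≤ y ≤ 1` (`y = lam / b`).  `ef_g`: the left side is
`ef u * (b (e^(lam/b) - 1) - e^(lam/b) (1 - e^(-lam))) ≤ ef u * (lam + lam²/b - (1 - e^(-lam))) = rh * ef u`.
-/

set_option autoImplicit false

namespace Pool.Agent.Helper72.WF

/-- The exponential potential. -/
noncomputable def ef (lam : ℝ) (b : ℕ) (s : ℤ) : ℝ := Real.exp (lam * s / b)

/-- The growth constant. -/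
noncomputable def rh (lam : ℝ) (b : ℕ) : ℝ := lam - (1 - Real.exp (-lam)) + lam ^ 2 / b

theorem ef_pos (lam : ℝ) (b : ℕ) (s : ℤ) : 0 < ef lam b s := Real.exp_pos _

theorem ef_mono {lam : ℝ} (hl : 0 ≤ lam) (b : ℕ) : Monotone (ef lam b) := by
  intro s t h
  unfold ef
  apply Real.exp_le_exp.2
  have h1 : (s : ℝ) ≤ t := by exact_mod_cast h
  have h2 : (0 : ℝ) ≤ b := Nat.cast_nonneg b
  exact div_le_div_of_nonneg_right (mul_le_mul_of_nonneg_left h1 hl) h2

private theorem wf_fun_succ (lam : ℝ) (b : ℕ) (s : ℤ) :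
    ef lam b (s + 1) = ef lam b s * Real.exp (lam / b) := by
  unfold ef
  rw [← Real.exp_add]
  congr 1
  push_cast
  ring

private theorem wf_fun_one {lam : ℝ} (hl : 0 ≤ lam) (b : ℕ) : 1 ≤ Real.exp (lam / b) :=
  Real.one_le_exp (div_nonneg hl (Nat.cast_nonneg b))

theorem ef_D_mono {lam : ℝ} (hl : 0 ≤ lam) (b : ℕ) :
    Monotone fun s : ℤ => ef lam b (s + 1) - ef lam b s := by
  intro s t h
  have h1 := ef_mono hl b h
  have h2 := wf_fun_one hl b
  show ef lam b (s + 1) - ef lam b s ≤ ef lam b (t + 1) - ef lam b t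
  rw [wf_fun_succ, wf_fun_succ]
  nlinarith

theorem rh_nonneg {lam : ℝ} (hl : 0 ≤ lam) (b : ℕ) : 0 ≤ rh lam b := by
  unfold rh
  have h1 := Real.add_one_le_exp (-lam)
  have h2 : 0 ≤ lam ^ 2 / (b : ℝ) := div_nonneg (sq_nonneg _) (Nat.cast_nonneg b)
  linarith

private theorem wf_fun_exp {lam : ℝ} (hl : 0 ≤ lam) (hl1 : lam ≤ 1) {b : ℕ} (hb : 0 < b) :
    Real.exp (lam / b) - 1 ≤ lam / b + (lam / b) ^ 2 := by
  have hb1 : (1 : ℝ) ≤ b := by exact_mod_cast hb
  have h0 : 0 ≤ lam / (b : ℝ) := div_nonneg hl (by linarith)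
  have h1 : lam / (b : ℝ) ≤ 1 := (div_le_one (by linarith)).2 (by linarith)
  have h2 := Real.abs_exp_sub_one_sub_id_le (x := lam / b) (by rw [abs_of_nonneg h0]; exact h1)
  have h3 := (abs_le.1 h2).2
  linarith

theorem ef_D {lam : ℝ} (hl : 0 ≤ lam) (hl1 : lam ≤ 1) {b : ℕ} (hb : 0 < b) (s : ℤ) :
    ef lam b (s + 1) - ef lam b s ≤ (lam / b + lam ^ 2 / b ^ 2) * ef lam b s := by
  have h1 := wf_fun_exp hl hl1 hb
  have h2 := ef_pos lam b s
  rw [wf_fun_succ]
  rw [div_pow] at h1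
  nlinarith

theorem ef_g {lam : ℝ} (hl : 0 ≤ lam) (hl1 : lam ≤ 1) {b : ℕ} (hb : 0 < b) {u s : ℤ}
    (hus : u ≤ s) :
    (b : ℝ) * (ef lam b (u + 1) - ef lam b u) - (ef lam b (u + 1) - ef lam b (u + 1 - (b : ℤ))) ≤
      rh lam b * ef lam b s := by
  have hb1 : (0 : ℝ) < b := by exact_mod_cast hb
  have h1 := wf_fun_exp hl hl1 hb
  have h2 := ef_pos lam b u
  have h3 : ef lam b (u + 1 - (b : ℤ)) = ef lam b (u + 1) * Real.exp (-lam) := by
    unfold ef
    rw [← Real.exp_add]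
    congr 1
    push_cast
    field_simp
    ring
  have h4 := wf_fun_one hl b
  have h5 : 0 ≤ 1 - Real.exp (-lam) := by
    have : Real.exp (-lam) ≤ 1 := Real.exp_le_one_iff.2 (by linarith)
    linarith
  have h6 : (b : ℝ) * (Real.exp (lam / b) - 1) ≤ lam + lam ^ 2 / b := by
    calc (b : ℝ) * (Real.exp (lam / b) - 1) ≤ b * (lam / b + (lam / b) ^ 2) :=
          mul_le_mul_of_nonneg_left h1 hb1.le
      _ = lam + lam ^ 2 / b := by
          field_simp
  have h7 : 1 - Real.exp (-lam) ≤ Real.exp (lam / b) * (1 - Real.exp (-lam)) := by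
    nlinarith
  have h8 : rh lam b * ef lam b u ≤ rh lam b * ef lam b s :=
    mul_le_mul_of_nonneg_left (ef_mono hl b hus) (rh_nonneg hl b)
  refine le_trans ?_ h8
  rw [h3, wf_fun_succ]
  have e1 : (b : ℝ) * (ef lam b u * Real.exp (lam / b) - ef lam b u) -
      (ef lam b u * Real.exp (lam / b) - ef lam b u * Real.exp (lam / b) * Real.exp (-lam)) =
      ef lam b u * ((b : ℝ) * (Real.exp (lam / b) - 1) -
        Real.exp (lam / b) * (1 - Real.exp (-lam))) := by ring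
  rw [e1, mul_comm (rh lam b)]
  apply mul_le_mul_of_nonneg_left _ h2.le
  unfold rh
  linarith

end Pool.Agent.Helper72.WF
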