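import Pool.Agent.Helper72.WF.Fun

/-!
# Project WF, module Hist: the removed potential

PROOFS.  `gH_succ`: reindex (`s + 1 - (i + 1 - j) = s - (i - j)`).  `hist_step`: `Z' = Z + (1/q)^(i+1) * ef (s0 v)`;
`gH (i+1) (s1 y) ≤ gH (i+1) (s0 y + 1) = gH i (s0 y) + (1/q)^(i+1) * ef (s0 y)`, `ef (s0 y) ≤ ef (s0 v)`.
-/

set_option autoImplicit false

namespace Pool.Agent.Helper72.WF

open Finset

/-- A lower bound for the potential which was removed before step `i`, if a vertex with deficit `s`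
is still there. -/
noncomputable def gH (lam q : ℝ) (b i : ℕ) (s : ℤ) : ℝ :=
  ∑ j ∈ range i, (1 / q) ^ (j + 1) * ef lam b (s - ((i : ℤ) - j))

theorem gH_mono {lam q : ℝ} (hl : 0 ≤ lam) (hq : 0 < q) (b i : ℕ) :
    Monotone (gH lam q b i) := by
  intro s t hst
  unfold gH
  refine Finset.sum_le_sum fun j _ => ?_
  exact mul_le_mul_of_nonneg_left (ef_mono hl b (by omega)) (by positivity)

theorem gH_succ (lam q : ℝ) (b i : ℕ) (s : ℤ) :
    gH lam q b (i + 1) (s + 1) = gH lam q b i s + (1 / q) ^ (i + 1) * ef lam b s := by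
  unfold gH
  rw [Finset.sum_range_succ]
  have h1 : ∀ j ∈ range i, (1 / q) ^ (j + 1) * ef lam b (s + 1 - (((i + 1 : ℕ) : ℤ) - j)) =
      (1 / q) ^ (j + 1) * ef lam b (s - ((i : ℤ) - j)) := by
    intro j _
    have e : s + 1 - (((i + 1 : ℕ) : ℤ) - j) = s - ((i : ℤ) - j) := by
      push_cast
      ring
    rw [e]
  have e : s + 1 - (((i + 1 : ℕ) : ℤ) - (i : ℤ)) = s := by
    push_cast
    ring
  rw [Finset.sum_congr rfl h1, e]

theorem hist_step {V : Type*} {R R' : Finset V} {v : V} {s0 s1 : V → ℤ} {b i : ℕ}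
    {lam q κ n : ℝ} (hl : 0 ≤ lam) (hq : 0 < q) (hκ : 0 ≤ κ) (hRR : R' ⊆ R)
    (hmax : ∀ y ∈ R, s0 y ≤ s0 v) (hs : ∀ y ∈ R', s1 y ≤ s0 y + 1)
    (hpot : ∑ y ∈ R', ef lam b (s1 y) ≤ q * ∑ y ∈ R, ef lam b (s0 y) - κ * ef lam b (s0 v))
    (h : ∃ Z : ℝ, (∀ y ∈ R, gH lam q b i (s0 y) ≤ Z) ∧
      (1 / q) ^ i * ∑ y ∈ R, ef lam b (s0 y) + κ * Z ≤ n) :
    ∃ Z : ℝ, (∀ y ∈ R', gH lam q b (i + 1) (s1 y) ≤ Z) ∧
      (1 / q) ^ (i + 1) * ∑ y ∈ R', ef lam b (s1 y) + κ * Z ≤ n := by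
  obtain ⟨Z, h1, h2⟩ := h
  have hq1 : 0 ≤ (1 / q) ^ (i + 1) := by positivity
  refine ⟨Z + (1 / q) ^ (i + 1) * ef lam b (s0 v), ?_, ?_⟩
  · intro y hy
    have hyR := hRR hy
    have a1 : gH lam q b (i + 1) (s1 y) ≤ gH lam q b (i + 1) (s0 y + 1) :=
      gH_mono hl hq b (i + 1) (hs y hy)
    rw [gH_succ] at a1
    have a2 : (1 / q) ^ (i + 1) * ef lam b (s0 y) ≤ (1 / q) ^ (i + 1) * ef lam b (s0 v) :=
      mul_le_mul_of_nonneg_left (ef_mono hl b (hmax y hyR)) hq1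
    have a3 := h1 y hyR
    linarith
  · have a1 := mul_le_mul_of_nonneg_left hpot hq1
    have a2 : (1 / q) ^ (i + 1) * (q * ∑ y ∈ R, ef lam b (s0 y) - κ * ef lam b (s0 v)) =
        (1 / q) ^ i * ∑ y ∈ R, ef lam b (s0 y) - κ * ((1 / q) ^ (i + 1) * ef lam b (s0 v)) := by
      have e : (1 / q) ^ (i + 1) * q = (1 / q) ^ i := by
        rw [pow_succ, mul_assoc, one_div_mul_cancel hq.ne', mul_one]
      calc (1 / q) ^ (i + 1) * (q * ∑ y ∈ R, ef lam b (s0 y) - κ * ef lam b (s0 v))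
          = ((1 / q) ^ (i + 1) * q) * ∑ y ∈ R, ef lam b (s0 y) -
            κ * ((1 / q) ^ (i + 1) * ef lam b (s0 v)) := by ring
        _ = _ := by rw [e]
    rw [a2] at a1
    have a3 : κ * (Z + (1 / q) ^ (i + 1) * ef lam b (s0 v)) =
        κ * Z + κ * ((1 / q) ^ (i + 1) * ef lam b (s0 v)) := by ring
    rw [a3]
    linarith

end Pool.Agent.Helper72.WF
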