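import Pool.Agent.Helper5.WC.Main

/-!
# Project WF, module Inv: the invariant of the main stage without the quadratic potential

PROOFS.  Copy `h5_start`, `h5_end`, `h5_step` of `Helper5/WC/Main.lean` without the field `hpot`; the new field `hcnt`:
`C' = C ∪ X.image ..` has at most `|C| + |X|` pairs, `A.image .. ⊆ U` has `|A| = |X| b` elements.   `hlo` in `step3`: `b (dg C v + |X|) = h5a - h5s + |A|` and `h5_count`.
-/

set_option autoImplicit false

namespace Pool.Agent.Helper72.WF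

open Finset Pool.Agent.Helper72.WC

variable {n : ℕ}

/-- The invariant. -/
structure Inv3 (b k K l : ℕ) (ρ : Fin n → Fin n → Prop) [DecidableRel ρ] (P : Finset (Fin n))
    (U C : Finset (Sym2 (Fin n))) : Prop where
  hC : C ⊆ board n
  hU : U ⊆ board n
  hd : Disjoint C U
  hres : ∀ x y, x ≠ y → ρ x y → s(x, y) ∈ U
  hout : ∀ x y, x ∉ P → y ∉ P → x ≠ y → s(x, y) ∈ U
  hsp : Sp l C
  hlo : ∀ x ∈ P, k ≤ dg C x
  hup : ∀ x, x ∉ P → dg C x ≤ K
  hupP : ∀ x ∈ P, dg C x ≤ K + n / b
  hcnt : b * C.card + U.card ≤ (board n).card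

theorem start3 {b k K l : ℕ} {ρ : Fin n → Fin n → Prop} [DecidableRel ρ] :
    Inv3 b k K l ρ ∅ (board n) ∅ := by
  have hdg : ∀ x : Fin n, dg (∅ : Finset (Sym2 (Fin n))) x = 0 := by
    intro x
    simp [dg, nb]
  refine ⟨by simp, subset_rfl, by simp, ?_, ?_, ?_, by simp, ?_, by simp, by simp⟩
  · intro x y hxy _
    simp [board, hxy]
  · intro x y _ _ hxy
    simp [board, hxy]
  · intro W hW _
    simpa using hW
  · intro x _
    rw [hdg]
    omega

theorem end3 {b k K Δ l : ℕ} {ρ : Fin n → Fin n → Prop} [DecidableRel ρ]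
    {P : Finset (Fin n)} {U C : Finset (Sym2 (Fin n))} (hkK : k ≤ K) (hΔ : K + n / b + 1 ≤ Δ)
    (h : Inv3 b k K l ρ P U C) (hR : h5R K P C = ∅) :
    C ⊆ board n ∧ U ⊆ board n ∧ Disjoint C U ∧
      (∀ x y, x ≠ y → ρ x y → s(x, y) ∈ U) ∧
      (∀ x, k ≤ dg C x) ∧ (∀ x, dg C x ≤ Δ) ∧ Sp l C := by
  refine ⟨h.hC, h.hU, h.hd, h.hres, ?_, ?_, h.hsp⟩
  · intro x
    by_cases hx : x ∈ P
    · exact h.hlo x hx
    · by_contra hcon
      have : x ∈ h5R K P C := by
        rw [h5R, mem_filter]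
        exact ⟨mem_univ _, hx, by omega⟩
      rw [hR] at this
      exact absurd this (Finset.notMem_empty _)
  · intro x
    by_cases hx : x ∈ P
    · have := h.hupP x hx
      omega
    · exact (h.hup x hx).trans ((Nat.le_add_right _ _).trans ((Nat.le_add_right _ _).trans hΔ))

theorem step3 {b k K l β : ℕ} {ρ : Fin n → Fin n → Prop} [DecidableRel ρ]
    {P : Finset (Fin n)} {U C : Finset (Sym2 (Fin n))} {v : Fin n} {X A : Finset (Fin n)}
    {r0 σ : ℕ} {τ : ℤ} (hρ : ∀ x y, ρ x y → ρ y x)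
    (hr : ∀ x, (univ.filter fun y => ρ x y).card ≤ r0) (hb : 0 < b)
    (h : Inv3 b k K l ρ P U C) (hvR : v ∈ h5R K P C)
    (hSat : (h5S K P C).card ≤ σ) (hτ : h5s b ρ P C v ≤ τ)
    (hnum : (b : ℤ) * k + σ + r0 + τ + β + 1 ≤ n)
    (hXA : X ⊆ A) (hAW : A ⊆ (h5R K P C).erase v ∩ h5ns ρ v) (hcard : A.card = X.card * b)
    (hsp : Sp l (C ∪ X.image fun y => s(v, y)))
    (hWA : ((h5R K P C).erase v ∩ h5ns ρ v).card < A.card + b + β) :
    Inv3 b k K l ρ (insert v P) (U \ A.image fun y => s(v, y))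
      (C ∪ X.image fun y => s(v, y)) := by
  have hvR' := h5_mem_R.1 hvR
  have hvP := hvR'.1
  have hXW : X ⊆ (h5R K P C).erase v ∩ h5ns ρ v := hXA.trans hAW
  have hXR : X ⊆ (h5R K P C).erase v := hXW.trans inter_subset_left
  have hXv : v ∉ X := fun h2 => (mem_erase.1 (hXR h2)).1 rfl
  have hXP : ∀ x ∈ X, x ∉ P := fun x hx => (h5_mem_R.1 (mem_erase.1 (hXR hx)).2).1
  have hAU : ∀ x ∈ A, s(v, x) ∈ U := fun x hx => by
    have h1 := mem_erase.1 (mem_inter.1 (hAW hx)).1
    exact h.hout v x hvP (h5_mem_R.1 h1.2).1 (fun h2 => h1.1 h2.symm)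
  have hXU : ∀ x ∈ X, s(v, x) ∈ U := fun x hx => hAU x (hXA hx)
  have hd : ∀ x ∈ X, s(v, x) ∉ C := fun x hx h2 =>
    Finset.disjoint_left.1 h.hd h2 (hXU x hx)
  have hWn : ((h5R K P C).erase v ∩ h5ns ρ v).card ≤ n := by
    calc _ ≤ (univ : Finset (Fin n)).card := card_le_card (subset_univ _)
      _ = n := by rw [card_univ, Fintype.card_fin]
  have hXb : X.card ≤ n / b := by
    rw [Nat.le_div_iff_mul_le hb, ← hcard]
    exact (card_le_card hAW).trans hWn
  have hdgv := h5_dg_v (C := C) hXv hd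
  refine ⟨?_, ?_, ?_, ?_, ?_, hsp, ?_, ?_, ?_, ?_⟩
  · -- C' ⊆ board
    refine union_subset h.hC ?_
    intro e he
    obtain ⟨x, hx, rfl⟩ := mem_image.1 he
    exact h.hU (hXU x hx)
  · exact sdiff_subset.trans h.hU
  · -- disjoint
    rw [disjoint_union_left]
    refine ⟨h.hd.mono_right sdiff_subset, ?_⟩
    rw [Finset.disjoint_left]
    intro e he he2
    obtain ⟨x, hx, rfl⟩ := mem_image.1 he
    exact (mem_sdiff.1 he2).2 (mem_image.2 ⟨x, hXA hx, rfl⟩)
  · -- reserved pairs
    intro x y hxy hxyρ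
    rw [mem_sdiff]
    refine ⟨h.hres x y hxy hxyρ, ?_⟩
    intro he
    obtain ⟨z, hz, h1⟩ := mem_image.1 he
    have h2 := (h5_mem_ns.1 (mem_inter.1 (hAW hz)).2).2
    rw [Sym2.eq_iff] at h1
    rcases h1 with ⟨h3, h4⟩ | ⟨h3, h4⟩
    · subst h3 h4
      exact h2 hxyρ
    · subst h3 h4
      exact h2 (hρ _ _ hxyρ)
  · -- outer pairs
    intro x y hx hy hxy
    rw [mem_insert, not_or] at hx hy
    rw [mem_sdiff]
    refine ⟨h.hout x y hx.2 hy.2 hxy, ?_⟩
    intro he
    obtain ⟨z, hz, h1⟩ := mem_image.1 he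
    rw [Sym2.eq_iff] at h1
    rcases h1 with ⟨h3, _⟩ | ⟨h3, _⟩
    · exact hx.1 h3.symm
    · exact hy.1 h3.symm
  · -- the degrees of the processed vertices
    intro x hx
    rcases mem_insert.1 hx with rfl | hxP
    · rw [hdgv]
      have hcount := h5_count hr P C K x
      have h1 : (b : ℤ) * (dg C x : ℤ) = h5a ρ P x - h5s b ρ P C x := by
        unfold h5s
        ring
      have h2 : (b : ℤ) * (X.card : ℤ) = A.card := by
        rw [hcard]
        push_cast
        ring
      have h3 : (n : ℤ) ≤ h5a ρ P x + ((h5R K P C).erase x ∩ h5ns ρ x).card +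
          (h5S K P C).card + 1 + r0 := by exact_mod_cast hcount
      have h4 : (((h5R K P C).erase x ∩ h5ns ρ x).card : ℤ) < A.card + b + β := by
        exact_mod_cast hWA
      have h5 : ((h5S K P C).card : ℤ) ≤ σ := by exact_mod_cast hSat
      have h7 : (b : ℤ) * (k - 1) < b * ((dg C x : ℤ) + X.card) := by
        have e1 : (b : ℤ) * ((dg C x : ℤ) + X.card) =
          h5a ρ P x - h5s b ρ P C x + A.card := by
          rw [mul_add, h1, h2]
        have e2 : (b : ℤ) * (k - 1) = b * k - b := by ring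
        rw [e1, e2]
        linarith
      have h8 : ((k : ℤ) - 1) < (dg C x : ℤ) + X.card :=
        lt_of_mul_lt_mul_left h7 (by positivity)
      omega
    · have hxv : x ≠ v := fun h2 => hvP (h2 ▸ hxP)
      have hxX : x ∉ X := fun h2 => hXP x h2 hxP
      rw [h5_dg_o hxv hxX]
      exact h.hlo x hxP
  · -- the degrees of the other vertices
    intro x hx
    rw [mem_insert, not_or] at hx
    by_cases hxX : x ∈ X
    · rw [h5_dg_X hx.1 hxX (hd x hxX)]
      have := (h5_mem_R.1 (mem_erase.1 (hXR hxX)).2).2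
      omega
    · rw [h5_dg_o hx.1 hxX]
      exact h.hup x hx.2
  · intro x hx
    rcases mem_insert.1 hx with rfl | hxP
    · rw [hdgv]
      have := hvR'.2
      omega
    · have hxv : x ≠ v := fun h2 => hvP (h2 ▸ hxP)
      have hxX : x ∉ X := fun h2 => hXP x h2 hxP
      rw [h5_dg_o hxv hxX]
      exact h.hupP x hxP
  · -- the count
    have h1 : (C ∪ X.image fun y => s(v, y)).card ≤ C.card + X.card :=
      (card_union_le _ _).trans (Nat.add_le_add_left card_image_le _)
    have h2 : (A.image fun y => s(v, y)).card = A.card := by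
      apply card_image_of_injective
      intro y z hyz
      have h3 : s(v, y) = s(v, z) := hyz
      rw [Sym2.eq_iff] at h3
      rcases h3 with ⟨_, h4⟩ | ⟨h4, h5⟩
      · exact h4
      · rw [h5, h4]
    have h3 : (A.image fun y => s(v, y)) ⊆ U := by
      intro e he
      obtain ⟨x, hx, rfl⟩ := mem_image.1 he
      exact hAU x hx
    have h4 : (U \ A.image fun y => s(v, y)).card + A.card = U.card := by
      rw [← h2]
      exact card_sdiff_add_card_eq_card h3
    have h5 := h.hcnt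
    have h6 : b * (C ∪ X.image fun y => s(v, y)).card ≤ b * (C.card + X.card) :=
      Nat.mul_le_mul_left _ h1
    have h7 : b * (C.card + X.card) = b * C.card + A.card := by
      rw [hcard]
      ring
    omega

end Pool.Agent.Helper72.WF
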