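import Pool.Agent.Helper72.WF.Hist

/-!
# Project WF, module Low: a lower bound for `gH`

PROOF.  `q = 1 + rh/b ≤ e^(rh/b)`, `m = lam - rh`.  `(1/q)^(j+1) ef (s - (i - j)) =
e^(lam (s-i)/b) (1/q) (e^(lam/b)/q)^j` and `e^(lam/b)/q ≥ e^(m/b)`, so
`q * gH ≥ e^(lam (s-i)/b) Σ_(j<i) e^(m j/b)`, a geometric sum: times `(e^(m/b) - 1)` it is `e^(m i/b) - 1`.
-/

set_option autoImplicit false

namespace Pool.Agent.Helper72.WF

open Finset

theorem gH_lower {lam : ℝ} (hl : 0 < lam) {b : ℕ} (hb : 0 < b)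
    (hm : 0 < lam - rh lam b) (i : ℕ) (s : ℤ) :
    Real.exp (lam * ((s : ℝ) - i) / b) * (Real.exp ((lam - rh lam b) * i / b) - 1) ≤
      (1 + rh lam b / b) * (Real.exp ((lam - rh lam b) / b) - 1) *
        gH lam (1 + rh lam b / b) b i s := by
  have hb' : (0 : ℝ) < b := by exact_mod_cast hb
  obtain ⟨r, hr⟩ : ∃ r, r = rh lam b := ⟨_, rfl⟩
  rw [← hr] at hm ⊢
  have hr0 : 0 ≤ r := hr ▸ rh_nonneg hl.le b
  obtain ⟨q, hq⟩ : ∃ q, q = 1 + r / b := ⟨_, rfl⟩
  rw [← hq]
  have hq0 : 0 < q := by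
    rw [hq]
    positivity
  have hqe : q ≤ Real.exp (r / b) := by
    rw [hq, add_comm]
    exact Real.add_one_le_exp _
  obtain ⟨e, he⟩ : ∃ e, e = Real.exp ((lam - r) / b) := ⟨_, rfl⟩
  have he1 : 1 ≤ e := by
    rw [he]
    exact Real.one_le_exp (by positivity)
  have hei : Real.exp ((lam - r) * i / b) = e ^ i := by
    rw [he, ← Real.exp_nat_mul]
    congr 1
    ring
  rw [hei, ← he]
  have hterm : ∀ j ∈ range i, (1 / q) * (Real.exp (lam * ((s : ℝ) - i) / b) * e ^ j) ≤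
      (1 / q) ^ (j + 1) * ef lam b (s - ((i : ℤ) - j)) := by
    intro j _
    have h1 : Real.exp (-(r * j / b)) ≤ (1 / q) ^ j := by
      have h2 : (Real.exp (r / b))⁻¹ ≤ 1 / q := by
        rw [one_div]
        exact inv_anti₀ hq0 hqe
      have h3 : Real.exp (-(r * j / b)) = ((Real.exp (r / b))⁻¹) ^ j := by
        rw [← Real.exp_neg, ← Real.exp_nat_mul]
        congr 1
        ring
      rw [h3]
      exact pow_le_pow_left₀ (by positivity) h2 j
    have h4 : Real.exp (lam * ((s : ℝ) - i) / b) * e ^ j =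
        Real.exp (-(r * j / b)) * ef lam b (s - ((i : ℤ) - j)) := by
      unfold ef
      rw [he, ← Real.exp_nat_mul, ← Real.exp_add, ← Real.exp_add]
      congr 1
      push_cast
      ring
    rw [h4, pow_succ, mul_comm ((1 / q) ^ j) (1 / q), mul_assoc]
    refine mul_le_mul_of_nonneg_left ?_ (by positivity)
    exact mul_le_mul_of_nonneg_right h1 (ef_pos _ _ _).le
  have hsum := Finset.sum_le_sum hterm
  rw [← Finset.mul_sum, ← Finset.mul_sum] at hsum
  have hgeo : (∑ j ∈ range i, e ^ j) * (e - 1) = e ^ i - 1 := geom_sum_mul e i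
  have hfin : q * (e - 1) * ((1 / q) * (Real.exp (lam * ((s : ℝ) - i) / b) *
      ∑ j ∈ range i, e ^ j)) = Real.exp (lam * ((s : ℝ) - i) / b) * (e ^ i - 1) := by
    rw [← hgeo]
    have : q * (1 / q) = 1 := by
      field_simp
    calc q * (e - 1) * ((1 / q) * (Real.exp (lam * ((s : ℝ) - i) / b) *
        ∑ j ∈ range i, e ^ j)) = (q * (1 / q)) * (Real.exp (lam * ((s : ℝ) - i) / b) *
          ((∑ j ∈ range i, e ^ j) * (e - 1))) := by ring
      _ = _ := by rw [this, one_mul]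
  rw [← hfin]
  refine mul_le_mul_of_nonneg_left ?_ (mul_nonneg hq0.le (by linarith))
  unfold gH
  exact hsum

end Pool.Agent.Helper72.WF
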