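import Mathlib

/-!
# Project WF, module Num: the numbers

PROOF.  `s = √k`, `lam = α / s`, `x0 = 4 s - 1/10`, `c = s² + 4 s`, `μ = 1 - e^(-lam)`: `lam - lam²/2 ≤ μ ≤ lam`.
`lam x0 - (lam - μ) c ≥ 4 α - α²/2 - (2 α² + α/10) / s`, `μ c ≤ α (s + 4)`, `1 - e^(-μ x0) ≥ 0.99`
(`μ x0 ≥ 5` for `α = 3/2`, `s ≥ 5.38`; `≥ 11` for `α = 3`, `s ≥ 30`).  So it suffices
`α (s + 4) < 0.99 (1 - 2 α / s) e^(4 α - α²/2 - (2 α² + α/10)/s)`, where the right side increases with `s`.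
`num_a`: `α = 3/2`, `29 ≤ k ≤ 900` (`5.385 ≤ s ≤ 30`): for `s ≤ 10`: left `≤ 21`, right `≥ 0.99 * 0.4429 * e^4.01 ≥ 24`;
for `10 ≤ s ≤ 30`: left `≤ 51`, right `≥ 0.99 * 0.7 * e^4.41 ≥ 56`.
`num_b`: `α = 3`, `900 ≤ k ≤ 40000` (`30 ≤ s ≤ 200`): left `≤ 612`, right `≥ 0.99 * 0.8 * e^6.89 ≥ 777`.
-/

set_option autoImplicit false

namespace Pool.Agent.Helper72.WF

/-- The numerical condition. -/
def NumF (k : ℕ) (c : ℝ) : Prop :=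
  ∃ lam x0 : ℝ, 0 < lam ∧ lam ≤ 1 ∧ 0 < x0 ∧ (k : ℝ) + x0 < c ∧
    (1 - Real.exp (-lam)) * c <
      (1 - 2 * lam) * Real.exp (lam * x0 - (lam - (1 - Real.exp (-lam))) * c) *
        (1 - Real.exp (-(1 - Real.exp (-lam)) * x0))

end Pool.Agent.Helper72.WF
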