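import Pool.Agent.Helper72.WD.Pot
import Pool.Agent.Helper72.WF.Fun

/-!
# Project WF, module Pot: one step

PROOF.  Copy the proof of `pot2` in `Helper72/WD/Pot.lean` up to `hmain`: `wd_Pot_sum` with `f = ef lam b`; `hin` with
`D s = ef (s+1) - ef s`, `h s = ef (s+1) - ef (s+1-b)` (`wd_Pot_mono`), `G s = rh lam b * ef lam b s` (`ef_g`);
`Σ_A ef ≤ Σ_R ef`; the elements of `W \ A` (at most `b + β`) have `D (s0 y) ≤ D (s0 v)`; `ef_D` for `(2 b + β) D (s0 v)`.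
-/

set_option autoImplicit false

namespace Pool.Agent.Helper72.WF

open Finset

theorem pot3 {V : Type*} [DecidableEq V] {R W A X N : Finset V} {v : V} {s0 : V → ℤ}
    {b β : ℕ} {lam : ℝ} (hb : 0 < b) (hl : 0 ≤ lam) (hl1 : lam ≤ 1) (hv : v ∈ R)
    (hW : W ⊆ R.erase v) (hA : A ⊆ W) (hX : X ⊆ A) (hN : N ⊆ X)
    (hWA : W.card ≤ A.card + b + β) (hmax : ∀ y ∈ R, s0 y ≤ s0 v)
    (hin : ∀ D h G : ℤ → ℝ, Monotone D → Monotone h → (∀ c, 0 ≤ D c) →
      (∀ c s, c ≤ s → s ≤ s0 v → b * D c - h c ≤ G s) →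
      ∑ y ∈ A, D (s0 y) - ∑ x ∈ X, h (s0 x) ≤ b * D (s0 v) + (∑ y ∈ A, G (s0 y)) / b) :
    ∑ y ∈ (R.erase v) \ N,
        ef lam b (s0 y + (if y ∈ W then 1 else 0) - (if y ∈ X then (b : ℤ) else 0)) ≤
      (1 + rh lam b / b) * ∑ y ∈ R, ef lam b (s0 y) -
        (1 - (2 * b + β) * (lam / b + lam ^ 2 / b ^ 2)) * ef lam b (s0 v) := by
  have hbr : (0 : ℝ) < (b : ℝ) := by exact_mod_cast hb
  have hXW : X ⊆ W := hX.trans hA
  have hAR : A ⊆ R := (hA.trans hW).trans (Finset.erase_subset _ _)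
  have hfp : ∀ s, 0 < ef lam b s := fun s => ef_pos lam b s
  have hrh := rh_nonneg hl b
  have hDnn : ∀ u : ℤ, 0 ≤ ef lam b (u + 1) - ef lam b u := fun u => by
    have := ef_mono hl b (show u ≤ u + 1 by omega)
    linarith
  have hAn : ∑ y ∈ A, ef lam b (s0 y) ≤ ∑ y ∈ R, ef lam b (s0 y) :=
    Finset.sum_le_sum_of_subset_of_nonneg hAR fun y _ _ => (hfp _).le
  -- the inner inequality
  have hin1 := hin (fun s => ef lam b (s + 1) - ef lam b s)
    (fun s => ef lam b (s + 1) - ef lam b (s + 1 - (b : ℤ)))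
    (fun s => rh lam b * ef lam b s)
    (ef_D_mono hl b) (Pool.Agent.Helper72.WD.wd_Pot_mono _ (ef_D_mono hl b) b) hDnn
    (fun u s hus _ => ef_g hl hl1 hb hus)
  have hG : (∑ y ∈ A, rh lam b * ef lam b (s0 y)) / b ≤
      rh lam b / b * ∑ y ∈ R, ef lam b (s0 y) := by
    rw [← Finset.mul_sum, mul_div_right_comm]
    exact mul_le_mul_of_nonneg_left hAn (by positivity)
  -- the sum over `W`
  have hWD : ∑ y ∈ W, (ef lam b (s0 y + 1) - ef lam b (s0 y)) ≤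
      ∑ y ∈ A, (ef lam b (s0 y + 1) - ef lam b (s0 y)) +
        (b + β) * (ef lam b (s0 v + 1) - ef lam b (s0 v)) := by
    rw [← Finset.sum_sdiff hA, add_comm]
    have h1 : ∑ y ∈ W \ A, (ef lam b (s0 y + 1) - ef lam b (s0 y)) ≤
        ∑ _y ∈ W \ A, (ef lam b (s0 v + 1) - ef lam b (s0 v)) := by
      refine Finset.sum_le_sum fun y hy => ?_
      have h2 : y ∈ R := Finset.mem_of_mem_erase (hW (Finset.mem_sdiff.1 hy).1)
      exact ef_D_mono hl b (hmax y h2)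
    rw [Finset.sum_const, nsmul_eq_mul] at h1
    have h3 : (W \ A).card ≤ b + β := by
      have := Finset.card_sdiff_add_card_eq_card hA
      omega
    have h4 : ((W \ A).card : ℝ) * (ef lam b (s0 v + 1) - ef lam b (s0 v)) ≤
        (b + β) * (ef lam b (s0 v + 1) - ef lam b (s0 v)) := by
      refine mul_le_mul_of_nonneg_right ?_ (hDnn _)
      exact_mod_cast h3
    linarith
  have h6 := ef_D hl hl1 hb (s0 v)
  have hsum := Pool.Agent.Helper72.WD.wd_Pot_sum (s0 := s0) (b := b) (ef lam b) hW hXW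
  have e3 : ∑ y ∈ R, ef lam b (s0 y) = ∑ y ∈ R.erase v, ef lam b (s0 y) + ef lam b (s0 v) :=
    (Finset.sum_erase_add R (fun y => ef lam b (s0 y)) hv).symm
  have hdrop : ∑ y ∈ (R.erase v) \ N,
      ef lam b (s0 y + (if y ∈ W then 1 else 0) - (if y ∈ X then (b : ℤ) else 0)) ≤
      ∑ y ∈ R.erase v,
      ef lam b (s0 y + (if y ∈ W then 1 else 0) - (if y ∈ X then (b : ℤ) else 0)) :=
    Finset.sum_le_sum_of_subset_of_nonneg Finset.sdiff_subset fun y _ _ => (hfp _).le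
  have h7 : (2 * (b : ℝ) + β) * (ef lam b (s0 v + 1) - ef lam b (s0 v)) ≤
      (2 * b + β) * ((lam / b + lam ^ 2 / b ^ 2) * ef lam b (s0 v)) :=
    mul_le_mul_of_nonneg_left h6 (by positivity)
  have h8 : (1 + rh lam b / b) * ∑ y ∈ R, ef lam b (s0 y) =
      ∑ y ∈ R, ef lam b (s0 y) + rh lam b / b * ∑ y ∈ R, ef lam b (s0 y) := by ring
  refine hdrop.trans ?_
  have h9 : (1 - (2 * (b : ℝ) + β) * (lam / b + lam ^ 2 / b ^ 2)) * ef lam b (s0 v) =
      ef lam b (s0 v) - (2 * b + β) * ((lam / b + lam ^ 2 / b ^ 2) * ef lam b (s0 v)) := by ring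
  have h10 : (2 * (b : ℝ) + β) * (ef lam b (s0 v + 1) - ef lam b (s0 v)) =
      (b + β) * (ef lam b (s0 v + 1) - ef lam b (s0 v)) +
        b * (ef lam b (s0 v + 1) - ef lam b (s0 v)) := by ring
  rw [hsum, h8, h9]
  rw [h10] at h7
  linarith

end Pool.Agent.Helper72.WF
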