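import Pool.Agent.Helper72.WF.Inv

/-!
# Project WF, module Sat

PROOF.  `K |h5S| ≤ Σ_(x ∈ h5S) dg C x ≤ 2 |C|`, `b |C| ≤ |board|`, `2 |board| ≤ n²` (`two_card_board` in `Helper72/WE/Main.lean`,
copy it; the sum of the degrees: see `Helper72/WE/PhaseB.lean` or `PhaseA.lean`).
-/

set_option autoImplicit false

namespace Pool.Agent.Helper72.WF

open Finset Pool.Agent.Helper72.WC

variable {n : ℕ}

private theorem wf_Sat_mem (C : Finset (Sym2 (Fin n))) (x y : Fin n) :
    y ∈ nb C x ↔ s(x, y) ∈ C := by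
  rw [nb, mem_filter]
  exact ⟨fun h => h.2, fun h => ⟨mem_univ _, h⟩⟩

private theorem wf_Sat_sum (C : Finset (Sym2 (Fin n))) : ∑ x, dg C x ≤ 2 * C.card := by
  classical
  set P := ((univ : Finset (Fin n)).sigma fun v => nb C v) with hP
  have hPc : P.card = ∑ x, dg C x := by
    rw [hP, card_sigma]
    rfl
  have h3 : (P.image fun p => s(p.1, p.2)) ⊆ C := by
    intro e he
    rw [mem_image] at he
    obtain ⟨p, hp, rfl⟩ := he
    rw [hP, mem_sigma, wf_Sat_mem] at hp
    exact hp.2
  have h4 : P.card ≤ 2 * (P.image fun p => s(p.1, p.2)).card := by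
    refine card_le_mul_card_image _ _ fun e he => ?_
    induction e using Sym2.ind with
    | _ u w =>
      have h5 : (P.filter fun p => s(p.1, p.2) = s(u, w)) ⊆ {⟨u, w⟩, ⟨w, u⟩} := by
        rintro ⟨a, b⟩ hp
        rw [mem_filter] at hp
        have h6 := hp.2
        rw [Sym2.eq_iff] at h6
        rw [mem_insert, mem_singleton]
        rcases h6 with ⟨h7, h8⟩ | ⟨h7, h8⟩
        · left; simp only at h7 h8; subst h7; subst h8; rfl
        · right; simp only at h7 h8; subst h7; subst h8; rfl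
      exact (card_le_card h5).trans card_le_two
  rw [← hPc]
  exact h4.trans (Nat.mul_le_mul_left 2 (card_le_card h3))

private theorem wf_Sat_board : 2 * (board n).card ≤ n ^ 2 := by
  have h1 : (board n).card = n.choose 2 := by
    have h2 := Sym2.card_subtype_not_diag (α := Fin n)
    rw [Fintype.card_fin, Fintype.card_subtype] at h2
    rw [← h2, board]
  rw [h1, Nat.choose_two_right, sq]
  have h2 := Nat.div_mul_le_self (n * (n - 1)) 2
  have h3 : n * (n - 1) ≤ n * n := Nat.mul_le_mul_left _ (Nat.sub_le _ _)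
  omega

theorem sat3 {b k K l : ℕ} {ρ : Fin n → Fin n → Prop} [DecidableRel ρ]
    {P : Finset (Fin n)} {U C : Finset (Sym2 (Fin n))} (h : Inv3 b k K l ρ P U C) :
    b * K * (h5S K P C).card ≤ n ^ 2 := by
  have h1 : (h5S K P C).card * K ≤ 2 * C.card := by
    calc (h5S K P C).card * K = ∑ _x ∈ h5S K P C, K := by rw [sum_const, smul_eq_mul]
      _ ≤ ∑ x ∈ h5S K P C, dg C x := sum_le_sum fun x hx => by
          rw [h5S, mem_filter] at hx
          exact hx.2.2
      _ ≤ ∑ x, dg C x := sum_le_sum_of_subset (subset_univ _)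
      _ ≤ 2 * C.card := wf_Sat_sum C
  have h2 : 2 * (b * C.card) ≤ n ^ 2 := by
    have h3 := wf_Sat_board (n := n)
    have h4 := h.hcnt
    omega
  calc b * K * (h5S K P C).card = b * ((h5S K P C).card * K) := by ring
    _ ≤ b * (2 * C.card) := Nat.mul_le_mul_left b h1
    _ = 2 * (b * C.card) := by ring
    _ ≤ n ^ 2 := h2

end Pool.Agent.Helper72.WF
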