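import Pool.Agent.Helper10.WC.Counts
import Pool.Agent.Helper72.WD.Inner
import Pool.Agent.Helper72.WE.Sharp
import Pool.Agent.Helper72.WF.Bound
import Pool.Agent.Helper72.WF.Eps
import Pool.Agent.Helper72.WF.Num
import Pool.Agent.Helper72.WF.Pot
import Pool.Agent.Helper72.WF.Sat

/-!
# Project WF, module Main: the main stage with the exponential potential
-/

set_option autoImplicit false

namespace Pool.Agent.Helper72.WF

open Finset Pool.Agent.Helper72.WC

variable {n : ℕ}

/-- The invariant with the history. -/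
def InvH (b K : ℕ) (lam κ : ℝ) (ρ : Fin n → Fin n → Prop) [DecidableRel ρ] (P : Finset (Fin n))
    (C : Finset (Sym2 (Fin n))) : Prop :=
  ∃ Z : ℝ, (∀ y ∈ h5R K P C, gH lam (1 + rh lam b / b) b P.card (h5s b ρ P C y) ≤ Z) ∧
    (1 / (1 + rh lam b / b)) ^ P.card * ∑ y ∈ h5R K P C, ef lam b (h5s b ρ P C y) + κ * Z ≤ n

theorem start_H {b K : ℕ} {lam κ : ℝ} {ρ : Fin n → Fin n → Prop} [DecidableRel ρ] :
    InvH b K lam κ ρ (∅ : Finset (Fin n)) (∅ : Finset (Sym2 (Fin n))) := by
  have h0 : ∀ y : Fin n, h5s b ρ (∅ : Finset (Fin n)) (∅ : Finset (Sym2 (Fin n))) y = 0 := by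
    intro y
    simp [h5s, h5a, dg, nb]
  refine ⟨0, ?_, ?_⟩
  · intro y _
    simp [gH]
  · rw [card_empty, pow_zero, one_mul, mul_zero, add_zero,
      sum_congr rfl fun y _ => by rw [h0 y]]
    have h1 : ef lam b 0 = 1 := by simp [ef]
    rw [h1, sum_const, nsmul_eq_mul, mul_one]
    have : (h5R K (∅ : Finset (Fin n)) (∅ : Finset (Sym2 (Fin n)))).card ≤ n := by
      refine (card_le_univ _).trans ?_
      rw [Fintype.card_fin]
    exact_mod_cast this

theorem s_le_card {b : ℕ} {ρ : Fin n → Fin n → Prop} [DecidableRel ρ] (P : Finset (Fin n))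
    (C : Finset (Sym2 (Fin n))) (y : Fin n) : h5s b ρ P C y ≤ P.card := by
  unfold h5s
  have h1 : h5a ρ P y ≤ P.card := card_le_card inter_subset_left
  have h2 : (h5a ρ P y : ℤ) ≤ P.card := by exact_mod_cast h1
  have h3 : (0 : ℤ) ≤ b * (dg C y : ℤ) := by positivity
  linarith

theorem main_stage3 {b k K Δ l r0 σ β : ℕ} {lam κ : ℝ} {τ : ℤ} {ρ : Fin n → Fin n → Prop}
    [DecidableRel ρ] (hρ : ∀ x y, ρ x y → ρ y x)
    (hr : ∀ x, (univ.filter fun y => ρ x y).card ≤ r0) (hb : 0 < b) (hkK : k ≤ K)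
    (hΔ : K + n / b + 1 ≤ Δ) (hβ : (Δ + 1) ^ l ≤ β) (hl : 0 < lam) (hl1 : lam ≤ 1)
    (hκ0 : 0 ≤ κ) (hκ : κ ≤ 1 - (2 * b + β) * (lam / b + lam ^ 2 / b ^ 2))
    (hσ : n ^ 2 < b * K * (σ + 1))
    (hbound : ∀ i ≤ n, ∀ s : ℤ, s ≤ i → τ < s → (n : ℝ) < κ * gH lam (1 + rh lam b / b) b i s)
    (hnum : (b : ℤ) * k + σ + r0 + τ + β + 1 ≤ n) :
    Force b (fun U C => C ⊆ board n ∧ U ⊆ board n ∧ Disjoint C U ∧
      (∀ x y, x ≠ y → ρ x y → s(x, y) ∈ U) ∧
      (∀ x, k ≤ dg C x) ∧ (∀ x, dg C x ≤ Δ) ∧ Sp l C) (board n) ∅ := by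
  have hq : (0 : ℝ) < 1 + rh lam b / b := by
    have := rh_nonneg hl.le b
    positivity
  have hloop := Force.loop (b := b) (U := board n) (C := (∅ : Finset (Sym2 (Fin n))))
    (fun i U C => ∃ P : Finset (Fin n), (P.card = i ∨ (P.card ≤ i ∧ h5R K P C = ∅)) ∧
      Inv3 b k K l ρ P U C ∧ InvH b K lam κ ρ P C) n ?_ ⟨∅, Or.inl rfl, start3, start_H⟩
  · refine hloop.mono ?_
    rintro U C ⟨P, hP, h, -⟩
    refine end3 hkK hΔ h ?_
    rcases hP with hP | hP
    · have hPu : P = univ := by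
        rw [← card_eq_iff_eq_univ, hP, Fintype.card_fin]
      rw [Finset.eq_empty_iff_forall_notMem]
      intro y hy
      exact (h5_mem_R.1 hy).1 (hPu ▸ mem_univ y)
    · exact hP.2
  · rintro i hi U C ⟨P, hP, h, hH⟩
    by_cases hR : h5R K P C = ∅
    · refine Force.here ⟨P, Or.inr ⟨?_, hR⟩, h, hH⟩
      rcases hP with hP | hP
      · omega
      · omega
    · have hPi : P.card = i := by
        rcases hP with hP | hP
        · exact hP
        · exact absurd hP.2 hR
      obtain ⟨v, hvR, hmax⟩ := exists_max_image (h5R K P C) (h5s b ρ P C)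
        (nonempty_iff_ne_empty.2 hR)
      have hvR' := h5_mem_R.1 hvR
      have hτ : h5s b ρ P C v ≤ τ := by
        by_contra hcon
        rw [not_le] at hcon
        obtain ⟨Z, hZ1, hZ2⟩ := hH
        have h1 := hbound P.card (by omega) (h5s b ρ P C v) (s_le_card P C v) hcon
        have h2 : κ * gH lam (1 + rh lam b / b) b P.card (h5s b ρ P C v) ≤ κ * Z :=
          mul_le_mul_of_nonneg_left (hZ1 v hvR) hκ0
        have h3 : 0 ≤ (1 / (1 + rh lam b / b)) ^ P.card *
            ∑ y ∈ h5R K P C, ef lam b (h5s b ρ P C y) :=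
          mul_nonneg (by positivity) (sum_nonneg fun y _ => (ef_pos _ _ _).le)
        linarith
      have hSat : (h5S K P C).card ≤ σ := by
        by_contra hcon
        have h1 := sat3 h
        have h2 : b * K * (σ + 1) ≤ b * K * (h5S K P C).card :=
          Nat.mul_le_mul_left _ (by omega)
        omega
      have hWR : (h5R K P C).erase v ∩ h5ns ρ v ⊆ (h5R K P C).erase v := inter_subset_left
      have hWv : v ∉ (h5R K P C).erase v ∩ h5ns ρ v := fun h2 =>
        (mem_erase.1 (hWR h2)).1 rfl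
      have hWn : ((h5R K P C).erase v ∩ h5ns ρ v).card ≤ n := by
        calc _ ≤ (univ : Finset (Fin n)).card := card_le_card (subset_univ _)
          _ = n := by rw [card_univ, Fintype.card_fin]
      have hlow : ∀ y ∈ h5R K P C, -((b * K : ℕ) : ℤ) ≤ h5s b ρ P C y := by
        intro y hy
        have h1 := (h5_mem_R.1 hy).2
        have h2 : b * dg C y ≤ b * K := Nat.mul_le_mul_left _ h1.le
        have h3 : (b : ℤ) * dg C y ≤ ((b * K : ℕ) : ℤ) := by exact_mod_cast h2
        unfold h5s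
        have h4 : (0 : ℤ) ≤ h5a ρ P y := by positivity
        linarith
      have hin := WD.inner2 (b := b) (l := l) (β := β) (v := v)
        (W := (h5R K P C).erase v ∩ h5ns ρ v) (s0 := h5s b ρ P C) (t := h5s b ρ P C v)
        (m := ((b * K : ℕ) : ℤ)) (U := U) (C := C) hb h.hC h.hsp hWv ?_ ?_ ?_
        (by have := hlow v hvR; linarith) ?_
      · refine hin.mono ?_
        rintro U' C' ⟨A, X, hXA, hAW, hcard, rfl, rfl, hsp, hWA, -, hfun⟩
        refine ⟨insert v P, Or.inl ?_, ?_, ?_⟩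
        · rw [card_insert_of_notMem hvR'.1, hPi]
        · exact step3 hρ hr hb h hvR hSat hτ hnum hXA hAW hcard hsp hWA
        · have hXR : X ⊆ (h5R K P C).erase v := (hXA.trans hAW).trans inter_subset_left
          have hXU : ∀ x ∈ X, s(v, x) ∈ U := fun x hx => by
            have h1 := mem_erase.1 (hXR hx)
            exact h.hout v x hvR'.1 (h5_mem_R.1 h1.2).1 h1.1.symm
          have hd : ∀ x ∈ X, s(v, x) ∉ C := fun x hx h2 =>
            Finset.disjoint_left.1 h.hd h2 (hXU x hx)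
          have hp := pot3 (R := h5R K P C)
              (W := (h5R K P C).erase v ∩ h5ns ρ v) (A := A) (X := X)
              (N := X.filter fun y => K ≤ dg C y + 1) (v := v) (s0 := h5s b ρ P C)
              (b := b) (β := β) (lam := lam) hb hl.le hl1 hvR inter_subset_left hAW hXA
              (filter_subset _ _) hWA.le hmax hfun
          have hp2 : ∑ y ∈ ((h5R K P C).erase v) \ (X.filter fun y => K ≤ dg C y + 1),
              ef lam b (h5s b ρ P C y +
                (if y ∈ (h5R K P C).erase v ∩ h5ns ρ v then 1 else 0) -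
                (if y ∈ X then (b : ℤ) else 0)) ≤
              (1 + rh lam b / b) * ∑ y ∈ h5R K P C, ef lam b (h5s b ρ P C y) -
                κ * ef lam b (h5s b ρ P C v) := by
            refine hp.trans ?_
            have h1 := mul_le_mul_of_nonneg_right hκ (ef_pos lam b (h5s b ρ P C v)).le
            linarith
          have hst := hist_step (R := h5R K P C)
            (R' := ((h5R K P C).erase v) \ (X.filter fun y => K ≤ dg C y + 1)) (v := v)
            (s0 := h5s b ρ P C)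
            (s1 := fun y => h5s b ρ P C y +
                (if y ∈ (h5R K P C).erase v ∩ h5ns ρ v then 1 else 0) -
                (if y ∈ X then (b : ℤ) else 0)) (b := b) (i := P.card) (n := (n : ℝ))
            hl.le hq hκ0 (sdiff_subset.trans (erase_subset _ _)) hmax ?_ hp2 hH
          · obtain ⟨Z, hZ1, hZ2⟩ := hst
            refine ⟨Z, ?_, ?_⟩
            · intro y hy
              rw [card_insert_of_notMem hvR'.1]
              rw [h5_R_step hXR hd] at hy
              rw [h5_s_step hρ hvR'.1 hd (mem_sdiff.1 hy).1]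
              exact hZ1 y hy
            · rw [card_insert_of_notMem hvR'.1, h5_R_step hXR hd]
              rw [sum_congr rfl fun y hy => by
                rw [h5_s_step hρ hvR'.1 hd (mem_sdiff.1 hy).1]]
              exact hZ2
          · intro y _
            split_ifs <;> omega
      · intro y hy
        have h1 := mem_erase.1 (hWR hy)
        exact h.hout v y hvR'.1 (h5_mem_R.1 h1.2).1 h1.1.symm
      · intro y hy
        exact hmax y (mem_erase.1 (hWR hy)).2
      · intro y hy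
        exact hlow y (mem_erase.1 (hWR hy)).2
      · intro X hX hXb
        refine (ball_card (Δ := Δ) ?_ l v).trans hβ
        intro x
        have hXv : v ∉ X := fun h2 => hWv (hX h2)
        have hXn : X.card ≤ n / b := by
          rw [Nat.le_div_iff_mul_le hb]
          exact hXb.trans hWn
        by_cases hxv : x = v
        · subst hxv
          have h1 := h5_dg_v_le (C := C) hXv
          have h2 := hvR'.2
          omega
        · have h1 := h5_dg_le (C := C) (X := X) hxv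
          by_cases hxP : x ∈ P
          · have h2 := h.hupP x hxP
            omega
          · have h2 := h.hup x hxP
            have h3 := Nat.zero_le (n / b)
            omega

theorem mainF {k : ℕ} {c : ℝ} (h : NumF k c) : WE.MainC k c := by
  classical
  obtain ⟨lam, x0, hl, hl1, hx0, hkx, hcond⟩ := h
  obtain ⟨ε, hε, hεμ, hF⟩ := exists_eps hl hcond
  have hk0 : (0 : ℝ) ≤ k := Nat.cast_nonneg k
  have hc0 : 0 < c := by linarith
  have hμ : 0 < 1 - Real.exp (-lam) := by linarith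
  -- `1 - 2 lam - ε` is positive
  have hpos : 0 < 1 - 2 * lam - ε := by
    by_contra hcon
    rw [not_lt] at hcon
    have h1 : 0 < (1 + ε) ^ 2 * (1 - Real.exp (-lam)) * c := by positivity
    have h2 : 0 < 1 - Real.exp (-((1 - Real.exp (-lam)) - ε) * x0) := by
      have h3 : 0 < ((1 - Real.exp (-lam)) - ε) * x0 := mul_pos (by linarith) hx0
      have h4 : Real.exp (-((1 - Real.exp (-lam)) - ε) * x0) < 1 := by
        rw [Real.exp_lt_one_iff, neg_mul]
        linarith
      linarith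
    have h5 : (1 - 2 * lam - ε) * Real.exp (lam * x0 - (lam - (1 - Real.exp (-lam)) + ε) * c) ≤
        0 := mul_nonpos_of_nonpos_of_nonneg hcon (Real.exp_pos _).le
    have h6 := mul_nonpos_of_nonpos_of_nonneg h5 h2.le
    linarith
  set η : ℝ := c - k - x0 with hη
  have hη0 : 0 < η := by linarith
  refine ⟨min (η / 8) (1 / 4), lt_min (by positivity) (by norm_num), min_le_right _ _, ?_⟩
  set δ : ℝ := min (η / 8) (1 / 4) with hδ
  have hδpos : 0 < δ := lt_min (by positivity) (by norm_num)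
  have hδ2 : δ ≤ η / 8 := min_le_left _ _
  obtain ⟨L1, hL1⟩ := exists_nat_gt (32 * c / η)
  obtain ⟨K1, hK1⟩ := exists_nat_gt (8 * c ^ 2 / η)
  set K : ℕ := K1 + k with hK
  set Δ : ℕ := K + ⌊c⌋₊ + 1 with hΔ
  refine ⟨L1 + 1, fun L hL => ⟨Δ, by omega, fun l => ?_⟩⟩
  have : NeZero L := ⟨by omega⟩
  set β : ℕ := (Δ + 1) ^ l with hβ
  obtain ⟨n1, hn1⟩ := exists_nat_gt (c * ((2 + 2 * (β : ℝ)) / ε))
  obtain ⟨n2, hn2⟩ := exists_nat_gt (c * (((β : ℝ) + 5) * 2 / η))
  refine ⟨n1 + n2 + 1, fun n hn b hb1 hb2 => ?_⟩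
  have hn0 : 0 < n := by omega
  have hn0' : (0 : ℝ) < n := by exact_mod_cast hn0
  have hbpos : 0 < b := by
    rcases Nat.eq_zero_or_pos b with h0 | h0
    · subst h0
      norm_num at hb2
      omega
    · exact h0
  have hbpos' : (0 : ℝ) < b := by exact_mod_cast hbpos
  have hbone : (1 : ℝ) ≤ b := by exact_mod_cast hbpos
  have hβ0 : (0 : ℝ) ≤ β := Nat.cast_nonneg β
  have hbε : 2 + 2 * (β : ℝ) ≤ ε * b := by
    have h1 : (n1 : ℝ) ≤ n := by exact_mod_cast (by omega : n1 ≤ n)
    have h2 : (2 + 2 * (β : ℝ)) / ε ≤ b := le_of_mul_le_mul_left (hn1.le.trans (h1.trans hb2)) hc0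
    rw [div_le_iff₀ hε] at h2
    linarith
  have hbη : ((β : ℝ) + 5) * 2 ≤ η * b := by
    have h1 : (n2 : ℝ) ≤ n := by exact_mod_cast (by omega : n2 ≤ n)
    have h2 : ((β : ℝ) + 5) * 2 / η ≤ b :=
      le_of_mul_le_mul_left (hn2.le.trans (h1.trans hb2)) hc0
    rw [div_le_iff₀ hη0] at h2
    linarith
  have hnb : n / b ≤ ⌊c⌋₊ := by
    refine Nat.le_floor ?_
    refine Nat.cast_div_le.trans ?_
    rw [div_le_iff₀ hbpos']
    exact hb2
  obtain ⟨r0, hr0def⟩ : ∃ r0 : ℕ, r0 = 4 * (n / L + 1) := ⟨_, rfl⟩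
  have hr0 : (r0 : ℝ) ≤ η * b / 8 + 4 := by
    rw [hr0def]
    have h1 : ((n / L : ℕ) : ℝ) ≤ n / L := Nat.cast_div_le
    have h2 : (32 * c / η : ℝ) ≤ L := hL1.le.trans (by exact_mod_cast (by omega : L1 ≤ L))
    have hL0 : (0 : ℝ) < L := lt_of_lt_of_le (by positivity) h2
    rw [div_le_iff₀ hη0] at h2
    have h4 : (n : ℝ) / L ≤ η * b / 32 := by
      rw [div_le_iff₀ hL0]
      have : 32 * c * b ≤ L * η * b := mul_le_mul_of_nonneg_right h2 hbpos'.le
      nlinarith
    push_cast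
    linarith
  -- the constants
  set κ : ℝ := 1 - (2 * b + β) * (lam / b + lam ^ 2 / b ^ 2) with hκ
  have hprod : (2 * b + β) * (lam / b + lam ^ 2 / b ^ 2) ≤ 2 * lam + ε := by
    have h1 : (2 * (b : ℝ) + β) * (lam / b + lam ^ 2 / b ^ 2) =
        2 * lam + (2 * lam ^ 2 + β * lam + β * lam ^ 2 / b) / b := by
      field_simp
      ring
    rw [h1]
    have h2 : lam ^ 2 ≤ 1 := by nlinarith
    have h3 : (2 * lam ^ 2 + β * lam + β * lam ^ 2 / b) / b ≤ ε := by
      rw [div_le_iff₀ hbpos']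
      have h4 : β * lam ^ 2 / b ≤ β := by
        rw [div_le_iff₀ hbpos']
        nlinarith
      nlinarith
    linarith
  have hκ1 : 1 - 2 * lam - ε ≤ κ := by
    rw [hκ]
    linarith
  have hκ2 : κ ≤ 1 := by
    have : 0 ≤ (2 * (b : ℝ) + β) * (lam / b + lam ^ 2 / b ^ 2) := by positivity
    rw [hκ]
    linarith
  set σ : ℕ := ⌊η * b / 8⌋₊ with hσ
  have hσ1 : (σ : ℝ) ≤ η * b / 8 := Nat.floor_le (by positivity)
  have hσ2 : η * b / 8 < σ + 1 := Nat.lt_floor_add_one _
  have hσ3 : n ^ 2 < b * K * (σ + 1) := by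
    have h1 : ((n ^ 2 : ℕ) : ℝ) < ((b * K * (σ + 1) : ℕ) : ℝ) := by
      push_cast
      have h3 : (n : ℝ) ^ 2 ≤ (c * b) ^ 2 := pow_le_pow_left₀ hn0'.le hb2 2
      have h4 : 8 * c ^ 2 / η < ((K1 : ℝ) + k) := hK1.trans_le (by linarith)
      have hKpos : (0 : ℝ) < (K1 : ℝ) + k := lt_of_le_of_lt (by positivity) h4
      rw [div_lt_iff₀ hη0] at h4
      have h5 : c ^ 2 * (b : ℝ) ^ 2 ≤ (b * ((K1 : ℝ) + k)) * (η * b / 8) := by
        have : 0 ≤ (b : ℝ) ^ 2 := by positivity
        nlinarith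
      have h6 : (b * ((K1 : ℝ) + k)) * (η * b / 8) < (b * ((K1 : ℝ) + k)) * (σ + 1) :=
        mul_lt_mul_of_pos_left hσ2 (by positivity)
      rw [hK]
      push_cast
      nlinarith
    exact_mod_cast h1
  set τ : ℤ := ⌊x0 * b⌋ with hτ
  have hτ1 : (τ : ℝ) ≤ x0 * b := Int.floor_le _
  have hτ2 : x0 * b < τ + 1 := Int.lt_floor_add_one _
  have hbound : ∀ i ≤ n, ∀ s : ℤ, s ≤ i → τ < s →
      (n : ℝ) < κ * gH lam (1 + rh lam b / b) b i s := by
    intro i hi s hsi hs
    have hs2 : x0 * b ≤ (s : ℝ) := by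
      have : ((τ + 1 : ℤ) : ℝ) ≤ s := by exact_mod_cast (by omega : τ + 1 ≤ s)
      push_cast at this
      linarith
    exact bound3 hl hl1 hε hεμ hx0 hbpos (by nlinarith) (by linarith) hb2 hi hsi hs2 hκ1 hκ2 hF
  have hnum : (b : ℤ) * k + σ + r0 + τ + β + 1 ≤ n := by
    have h1 : (((b : ℤ) * k + σ + r0 + τ + β + 1 : ℤ) : ℝ) ≤ ((n : ℤ) : ℝ) := by
      have h2 : (((b : ℤ) * k + σ + r0 + τ + β + 1 : ℤ) : ℝ) =
          (b : ℝ) * k + σ + (r0 : ℝ) + τ + β + 1 := by
        push_cast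
        ring
      rw [h2]
      have h3 : ((n : ℤ) : ℝ) = n := by norm_cast
      rw [h3]
      have h4 : δ * b ≤ η / 8 * b := mul_le_mul_of_nonneg_right hδ2 hbpos'.le
      have h5 : c * b = k * b + x0 * b + η * b := by
        rw [hη]
        ring
      nlinarith
    exact_mod_cast h1
  refine main_stage3 (n := n) (b := b) (k := k) (K := K) (Δ := Δ) (l := l)
    (r0 := r0) (σ := σ) (β := β) (lam := lam) (κ := κ) (τ := τ)
    (ρ := fun x y => relA L x y ∨ relB L x y) ?_ (fun x => hr0def ▸ card_rel x) hbpos (by omega)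
    (by omega) le_rfl hl hl1 (by linarith) le_rfl hσ3 hbound hnum
  rintro x y (h | h)
  · exact Or.inl h.symm
  · exact Or.inr h.symm

end Pool.Agent.Helper72.WF
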